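import Pool.Agent.MP_5c28a4_al.H8S.Spec
import Pool.Agent.MP_5c28a4_al.H81S.Ded

/-!
Section S2: tame subsets, the reduction lemma, iterated commutators.
-/

set_option autoImplicit false

namespace Pool.Agent.MP_5c28a4_al.H89S.StrA

open scoped commutatorElement
open StA

section Grp

variable {G G' : Type} [Group G] [Group G']

/-- iterated commutator of an element with a list -/
def icm (b : G) (ds : List G) : G := ds.foldl (fun x d => ⁅x, d⁆) b

@[simp] lemma icm_nil (b : G) : icm b [] = b := rfl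

@[simp] lemma icm_cons (b d : G) (ds : List G) : icm b (d :: ds) = icm ⁅b, d⁆ ds := rfl

lemma icm_concat (b d : G) (ds : List G) : icm b (ds ++ [d]) = ⁅icm b ds, d⁆ := by
  simp [icm, List.foldl_append]

lemma icm_map (f : G →* G') (b : G) (ds : List G) : f (icm b ds) = icm (f b) (ds.map f) := by
  induction ds generalizing b with
  | nil => rfl
  | cons d ds ih => rw [icm_cons, ih, map_commutatorElement]; rfl

lemma icm_one (ds : List G) : icm (1 : G) ds = 1 := by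
  induction ds with
  | nil => rfl
  | cons d ds ih => rw [icm_cons, commutatorElement_one_left, ih]

lemma comm_mem_left {B : Subgroup G} [hB : B.Normal] {b : G} (hb : b ∈ B) (d : G) : ⁅b, d⁆ ∈ B := by
  have := B.mul_mem hb (hB.conj_mem _ (B.inv_mem hb) d)
  simpa [commutatorElement_def, mul_assoc] using this

lemma icm_mem {B : Subgroup G} [B.Normal] {b : G} (hb : b ∈ B) (ds : List G) : icm b ds ∈ B := by
  induction ds generalizing b with
  | nil => exact hb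
  | cons d ds ih => exact ih (comm_mem_left hb d)

lemma icm_mem_itc {X D : Subgroup G} {b : G} (hb : b ∈ X) (ds : List G) (hd : ∀ d ∈ ds, d ∈ D) :
    icm b ds ∈ itc X D ds.length := by
  induction ds generalizing b X with
  | nil => exact hb
  | cons d ds ih =>
    rw [icm_cons, List.length_cons, ← itc_succ']
    exact ih (Subgroup.commutator_mem_commutator hb (hd d (by simp))) fun x hx => hd x (by simp [hx])

/-- on an abelian normal subgroup the commutator with a fixed element is multiplicative -/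
lemma cm_mul {B : Subgroup G} [hB : B.Normal] (h : Cm B B) {a b : G} (ha : a ∈ B) (hb : b ∈ B)
    (d : G) : ⁅a * b, d⁆ = ⁅a, d⁆ * ⁅b, d⁆ := by
  have h1 := h _ (comm_mem_left hb d) _ (hB.conj_mem _ (B.inv_mem ha) d)
  calc ⁅a * b, d⁆ = a * (⁅b, d⁆ * (d * a⁻¹ * d⁻¹)) := by simp [commutatorElement_def, mul_assoc]
    _ = ⁅a, d⁆ * ⁅b, d⁆ := by rw [h1]; simp [commutatorElement_def, mul_assoc]

lemma cm_pow {B : Subgroup G} [B.Normal] (h : Cm B B) {a : G} (ha : a ∈ B) (d : G) (n : ℕ) :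
    ⁅a ^ n, d⁆ = ⁅a, d⁆ ^ n := by
  induction n with
  | zero => simp
  | succ n ih => rw [pow_succ, cm_mul h (B.pow_mem ha n) ha, ih, pow_succ]

lemma icm_mul {B : Subgroup G} [B.Normal] (h : Cm B B) {a b : G} (ha : a ∈ B) (hb : b ∈ B)
    (ds : List G) : icm (a * b) ds = icm a ds * icm b ds := by
  induction ds generalizing a b with
  | nil => rfl
  | cons d ds ih =>
    rw [icm_cons, cm_mul h ha hb, ih (comm_mem_left ha d) (comm_mem_left hb d)]; rfl

lemma icm_pow {B : Subgroup G} [B.Normal] (h : Cm B B) {a : G} (ha : a ∈ B) (ds : List G) (n : ℕ) :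
    icm (a ^ n) ds = icm a ds ^ n := by
  induction n with
  | zero => simp [icm_one]
  | succ n ih => rw [pow_succ, icm_mul h (B.pow_mem ha n) ha, ih, pow_succ]

lemma icm_inv {B : Subgroup G} [B.Normal] (h : Cm B B) {a : G} (ha : a ∈ B) (ds : List G) :
    icm a⁻¹ ds = (icm a ds)⁻¹ := by
  have := icm_mul h ha (B.inv_mem ha) ds
  rw [mul_inv_cancel, icm_one] at this
  exact eq_inv_of_mul_eq_one_right this.symm

lemma itc_mono {X X' D D' : Subgroup G} (h : X ≤ X') (h' : D ≤ D') (n : ℕ) :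
    itc X D n ≤ itc X' D' n := by
  induction n with
  | zero => exact h
  | succ n ih => exact Subgroup.commutator_mono ih h'

lemma itc_add (X D : Subgroup G) (i j : ℕ) : itc (itc X D i) D j = itc X D (i + j) := by
  induction j with
  | zero => rfl
  | succ j ih => rw [itc, ih]; rfl

lemma itc_lcs (X : Subgroup G) (i j : ℕ) :
    itc (X.lowerCentralSeries i) X j = X.lowerCentralSeries (i + j) := by
  induction j with
  | zero => rfl
  | succ j ih => rw [itc, ih]; rfl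

lemma pw_mono {X Y : Subgroup G} (h : X ≤ Y) (n : ℕ) : pw X n ≤ pw Y n :=
  pw_le_iff.2 fun _ hx => pow_mem_pw (h hx) n

lemma pw_mul (X : Subgroup G) (m n : ℕ) : pw X (m * n) ≤ pw (pw X m) n :=
  pw_le_iff.2 fun x hx => by rw [pow_mul]; exact pow_mem_pw (pow_mem_pw hx m) n

lemma pw_dvd (X : Subgroup G) {m n : ℕ} (h : m ∣ n) : pw X n ≤ pw X m := by
  obtain ⟨k, rfl⟩ := h
  exact (pw_mul X m k).trans (pw_le _ _)

lemma pw_normal (X : Subgroup G) [h : X.Normal] (n : ℕ) : (pw X n).Normal := by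
  refine ⟨fun x hx g => ?_⟩
  have : pw X n ≤ (pw X n).comap (MulAut.conj g).toMonoidHom := pw_le_iff.2 fun y hy => by
    rw [Subgroup.mem_comap, map_pow]; exact pow_mem_pw (h.conj_mem y hy g) n
  exact this hx

lemma pw_map (f : G →* G') (X : Subgroup G) (n : ℕ) : (pw X n).map f = pw (X.map f) n := by
  refine le_antisymm (Subgroup.map_le_iff_le_comap.2 (pw_le_iff.2 fun y hy => ?_))
    (pw_le_iff.2 ?_)
  · rw [Subgroup.mem_comap, map_pow]; exact pow_mem_pw (Subgroup.mem_map_of_mem f hy) n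
  · rintro _ ⟨y, hy, rfl⟩
    exact ⟨y ^ n, pow_mem_pw hy n, map_pow _ _ _⟩

/-- the elements of a power subgroup of an abelian group are powers -/
lemma mem_pw {X : Subgroup G} (h : Cm X X) {n : ℕ} {x : G} (hx : x ∈ pw X n) :
    ∃ y ∈ X, x = y ^ n := by
  induction hx using Subgroup.closure_induction with
  | mem _ h => exact h
  | one => exact ⟨1, X.one_mem, (one_pow n).symm⟩
  | mul _ _ _ _ ha hb =>
    obtain ⟨a, ha, rfl⟩ := ha
    obtain ⟨b, hb, rfl⟩ := hb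
    exact ⟨a * b, X.mul_mem ha hb, (Commute.mul_pow (h a ha b hb) n).symm⟩
  | inv _ _ ha =>
    obtain ⟨a, ha, rfl⟩ := ha
    exact ⟨a⁻¹, X.inv_mem ha, (inv_pow a n).symm⟩

lemma cm_iff {X Y : Subgroup G} : Cm X Y ↔ ⁅X, Y⁆ = ⊥ := by
  rw [eq_bot_iff, Subgroup.commutator_le]
  simp only [Subgroup.mem_bot, commutatorElement_eq_one_iff_mul_comm]
  rfl

lemma cm_mono {X Y X' Y' : Subgroup G} (h : Cm X Y) (hX : X' ≤ X) (hY : Y' ≤ Y) : Cm X' Y' :=
  fun a ha b hb => h a (hX ha) b (hY hb)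

lemma nz_of_normal (P : Subgroup G) [h : P.Normal] (z : G) : Nz z P := fun x hx =>
  ⟨h.conj_mem x hx z, by simpa using h.conj_mem x hx z⁻¹⟩

lemma le_iff_map_mk {X : Subgroup G} (Y : Subgroup G) [Y.Normal] :
    X.map (QuotientGroup.mk' Y) = ⊥ ↔ X ≤ Y := by
  rw [Subgroup.map_eq_bot_iff, QuotientGroup.ker_mk']

lemma bdd_map {X : Subgroup G} (h : Bdd X) (f : G →* G') : Bdd (X.map f) := by
  obtain ⟨n, hn, h⟩ := h
  refine ⟨n, hn, ?_⟩
  rintro _ ⟨x, hx, rfl⟩
  rw [← map_pow, h x hx, map_one]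

lemma bdd_mono {X Y : Subgroup G} (h : Bdd X) (hY : Y ≤ X) : Bdd Y :=
  let ⟨n, hn, h⟩ := h; ⟨n, hn, fun x hx => h x (hY hx)⟩

lemma covn_of_fi (D : Subgroup G) (h : D.Normal) (h' : D.FiniteIndex) : CoVN D :=
  ⟨h, D, 0, h, h', le_rfl⟩

end Grp

section Rep

variable {N A : Type} [Group N] [AddCommGroup A]

/-- all the identities hold -/
def Sa (u : ℕ → FF →₀ ℤ) (ρ : Representation ℤ N A) : Prop := ∀ p : ℕ, p.Prime → Sat (u p) ρ

/-- the integers prime to `l` -/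
def La (l : ℕ) : Submonoid ℤ where
  carrier := {m | IsCoprime m l}
  one_mem' := isCoprime_one_left
  mul_mem' := IsCoprime.mul_left

/-- `S` acts nilpotently on a multiple of the module by an element of `Λ` -/
def Tm (Λ : Submonoid ℤ) (ρ : Representation ℤ N A) (S : Set N) : Prop :=
  ∃ m ∈ Λ, ∃ t : ℕ, ∀ a, m • a ∈ up ρ S t

/-- the value of a Laurent polynomial -/
noncomputable def pe (ρ : Representation ℤ N A) (z : N) (f : ℤ →₀ ℤ) : Module.End ℤ A :=
  f.sum fun i c => c • ρ (z ^ i)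

/-- the elements that fix `m A` -/
def kr (ρ : Representation ℤ N A) (m : ℤ) : Subgroup N where
  carrier := {x | ∀ a, ρ x (m • a) = m • a}
  one_mem' := fun a => by simp
  mul_mem' := fun {x y} hx hy a => by rw [map_mul, Module.End.mul_apply, hy, hx]
  inv_mem' := fun {x} hx a => by
    conv_lhs => rw [← hx a]
    rw [← Module.End.mul_apply, ← map_mul, inv_mul_cancel, map_one, Module.End.one_apply]

variable {ρ : Representation ℤ N A} {S S' : Set N} {Λ Λ' : Submonoid ℤ} {u : ℕ → FF →₀ ℤ}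

lemma mem_kr {m : ℤ} {x : N} : x ∈ kr ρ m ↔ ∀ a, ρ x (m • a) = m • a := Iff.rfl

instance kr_normal (ρ : Representation ℤ N A) (m : ℤ) : (kr ρ m).Normal := ⟨fun x hx g a => by
  rw [map_mul, map_mul, Module.End.mul_apply, Module.End.mul_apply, map_smul (ρ g⁻¹), hx,
    ← map_smul, ← Module.End.mul_apply, ← map_mul, mul_inv_cancel, map_one, Module.End.one_apply]⟩

lemma kr_le (ρ : Representation ℤ N A) (m m' : ℤ) : kr ρ m ≤ kr ρ (m * m') := fun x hx a => by
  rw [mul_smul]; exact hx _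

lemma mem_La {l : ℕ} (hl : l.Prime) {m : ℤ} : m ∈ La l ↔ ¬ (l : ℤ) ∣ m := by
  change IsCoprime m l ↔ _
  rw [isCoprime_comm]
  exact (Nat.prime_iff_prime_int.1 hl).irreducible.coprime_iff_not_dvd

lemma La_le {l : ℕ} (hl : l.Prime) : La l ≤ nonZeroDivisors ℤ := fun m hm =>
  mem_nonZeroDivisors_of_ne_zero fun h => (mem_La hl).1 hm (by rw [h]; exact dvd_zero _)

lemma Tm.mono (h : Tm Λ ρ S') (hS : S ⊆ S') : Tm Λ ρ S :=
  let ⟨m, hm, t, h⟩ := h; ⟨m, hm, t, fun a => up_anti hS t (h a)⟩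

lemma Tm.mono' (h : Tm Λ ρ S) (hΛ : Λ ≤ Λ') : Tm Λ' ρ S :=
  let ⟨m, hm, t, h⟩ := h; ⟨m, hΛ hm, t, h⟩

lemma Tm.of_nil {t : ℕ} (h : Nil ρ S t) : Tm Λ ρ S :=
  ⟨1, Λ.one_mem, t, fun a => by rw [one_smul]; exact h a⟩

lemma Tm.closure (h : Tm Λ ρ S) : Tm Λ ρ (Subgroup.closure S : Subgroup N) :=
  let ⟨m, hm, t, h⟩ := h; ⟨m, hm, t, fun a => by rw [up_closure]; exact h a⟩

lemma up_of_kill {m : ℤ} {n : ℕ} (h : Kill ρ m S n) (a : A) : m • a ∈ up ρ S n :=
  mem_up_iff.2 fun l hl hS => by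
    have := congrArg (fun f : Module.End ℤ A => f a) (h l hl hS)
    simpa using this

lemma Tm.of_kill {m : ℤ} {n : ℕ} (hm : m ∈ Λ) (h : Kill ρ m S n) : Tm Λ ρ S :=
  ⟨m, hm, n, up_of_kill h⟩

lemma kill_of_nil {n : ℕ} (h : Nil ρ S n) : Kill ρ 1 S n := fun l hl hS => by
  rw [nil_iff.1 h l hl hS, smul_zero]

/-- on a module of exponent `l` -/
lemma Tm.nil {l : ℕ} (h : Tm (La l) ρ S) (hl : ∀ a : A, (l : ℤ) • a = 0) : ∃ t, Nil ρ S t := by
  obtain ⟨m, ⟨x, y, hm⟩, t, h⟩ := h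
  refine ⟨t, fun a => ?_⟩
  have : a = x • m • a := by
    conv_lhs => rw [← one_smul ℤ a, ← hm, add_smul, mul_smul y, hl, smul_zero, add_zero, mul_smul]
  rw [this]
  exact Submodule.smul_mem _ _ (h a)

/-- the multiples of `m` -/
def mul (A : Type) [AddCommGroup A] (m : ℤ) : Submodule ℤ A :=
  LinearMap.range (m • (LinearMap.id : A →ₗ[ℤ] A))

lemma mem_mul {m : ℤ} {a : A} : a ∈ mul A m ↔ ∃ b, m • b = a := Iff.rfl

lemma mul_inv (ρ : Representation ℤ N A) (m : ℤ) (g : N) : mul A m ≤ (mul A m).comap (ρ g) := by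
  rintro _ ⟨b, rfl⟩
  exact ⟨ρ g b, (map_smul (ρ g) m b).symm⟩

variable {W : Submodule ℤ A} (hW : ∀ g, W ≤ W.comap (ρ g))

lemma quot_mk (g : N) (a : A) : ρ.quotient W hW g (Submodule.Quotient.mk a) =
    Submodule.Quotient.mk (ρ g a) := rfl

lemma up_sub {k : ℕ} {a : W} : a ∈ up (ρ.subrepresentation W hW) S k ↔ a.1 ∈ up ρ S k := by
  induction k generalizing a with
  | zero => rw [mem_up_zero, mem_up_zero]; exact Subtype.ext_iff
  | succ k ih =>
    rw [mem_up_succ, mem_up_succ]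
    exact forall₂_congr fun s _ => ih

lemma up_quot {k : ℕ} {a : A} (ha : a ∈ up ρ S k) :
    Submodule.Quotient.mk a ∈ up (ρ.quotient W hW) S k := by
  induction k generalizing a with
  | zero => rw [mem_up_zero.1 ha]; exact Submodule.zero_mem _
  | succ k ih =>
    refine mem_up_succ.2 fun s hs => ?_
    rw [quot_mk, ← Submodule.Quotient.mk_sub]
    exact ih (mem_up_succ.1 ha s hs)

/-- from a quotient and a multiple of the submodule -/
lemma up_ext {m : ℤ} {t k : ℕ} (h : ∀ a ∈ W, m • a ∈ up ρ S t) {a : A}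
    (ha : Submodule.Quotient.mk a ∈ up (ρ.quotient W hW) S k) : m • a ∈ up ρ S (t + k) := by
  induction k generalizing a with
  | zero => exact h a ((Submodule.Quotient.mk_eq_zero _).1 (mem_up_zero.1 ha))
  | succ k ih =>
    refine mem_up_succ.2 fun s hs => ?_
    rw [map_smul, ← smul_sub]
    refine ih ?_
    rw [Submodule.Quotient.mk_sub, ← quot_mk hW]
    exact mem_up_succ.1 ha s hs

lemma Tm.ext (h : Tm Λ (ρ.subrepresentation W hW) S) (h' : Tm Λ (ρ.quotient W hW) S) :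
    Tm Λ ρ S := by
  obtain ⟨m, hm, t, h⟩ := h
  obtain ⟨m', hm', t', h'⟩ := h'
  refine ⟨m * m', Λ.mul_mem hm hm', t + t', fun a => ?_⟩
  rw [mul_smul]
  exact up_ext hW (fun a ha => (up_sub hW).1 (h ⟨a, ha⟩)) (h' (Submodule.Quotient.mk a))

lemma Nil.ext {t t' : ℕ} (h : Nil (ρ.subrepresentation W hW) S t)
    (h' : Nil (ρ.quotient W hW) S t') : Nil ρ S (t + t') := fun a => by
  have := up_ext hW (m := 1) (fun a ha => by rw [one_smul]; exact (up_sub hW).1 (h ⟨a, ha⟩))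
    (h' (Submodule.Quotient.mk a))
  rwa [one_smul] at this

lemma Sa.sub (h : Sa u ρ) : Sa u (ρ.subrepresentation W hW) := fun p hp =>
  sat_apply.2 fun φ a => Subtype.ext (by simpa using sat_apply.1 (h p hp) φ a.1)

lemma Sa.quot (h : Sa u ρ) : Sa u (ρ.quotient W hW) := fun p hp =>
  sat_apply.2 fun φ a => by
    obtain ⟨a, rfl⟩ := Submodule.Quotient.mk_surjective _ a
    have := congrArg W.mkQ (sat_apply.1 (h p hp) φ a)
    simpa [quot_mk] using this

lemma Sa.comp {N' : Type} [Group N'] (h : Sa u ρ) (f : N' →* N) :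
    Sa u (ρ.comp f : Representation ℤ N' A) := fun p hp => sat_comp (h p hp) f

lemma Sa.of_surj {N' : Type} [Group N'] (h : Sa u ρ) {σ : Representation ℤ N' A} (f : N →* N')
    (hs : Function.Surjective f) (hf : ∀ x, σ (f x) = ρ x) : Sa u σ := fun p hp =>
  sat_of_surj (h p hp) f hs hf

/-- passing to the quotient by a normal subgroup that acts trivially -/
lemma Sa.quotGrp (h : Sa u ρ) (Y : Subgroup N) [Y.Normal] (hY : ∀ y ∈ Y, ρ y = 1) :
    ∃ σ : Representation ℤ (N ⧸ Y) A, Sa u σ ∧ ∀ x, σ (QuotientGroup.mk' Y x) = ρ x :=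
  ⟨QuotientGroup.lift Y ρ hY, h.of_surj (QuotientGroup.mk' Y) (QuotientGroup.mk'_surjective Y)
    fun _ => rfl, fun _ => rfl⟩

lemma up_map {N' : Type} [Group N'] {σ : Representation ℤ N' A} (f : N →* N')
    (hf : ∀ x, σ (f x) = ρ x) (k : ℕ) : up σ (f '' S) k = up ρ S k := by
  induction k with
  | zero => rfl
  | succ k ih =>
    ext a
    rw [mem_up_succ, mem_up_succ, Set.forall_mem_image, ih]
    simp only [hf]

lemma Tm.of_map {N' : Type} [Group N'] {σ : Representation ℤ N' A} (f : N →* N')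
    (hf : ∀ x, σ (f x) = ρ x) (h : Tm Λ σ (f '' S)) : Tm Λ ρ S :=
  let ⟨m, hm, t, h⟩ := h; ⟨m, hm, t, fun a => by rw [← up_map f hf]; exact h a⟩

/-- a tame set is nilpotent on a multiple of the module -/
lemma tm_iff : Tm Λ ρ S ↔ ∃ m ∈ Λ, ∃ t, Nil (ρ.subrepresentation _ (mul_inv ρ m)) S t := by
  refine exists_congr fun m => and_congr_right fun _ => exists_congr fun t => ?_
  refine ⟨fun h a => (up_sub _).2 ?_, fun h a => (up_sub (mul_inv ρ m)).1 (h ⟨m • a, a, rfl⟩)⟩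
  obtain ⟨_, b, rfl⟩ := a
  exact h b

lemma Tm.of_mul {m : ℤ} (hm : m ∈ Λ) (h : Tm Λ (ρ.subrepresentation _ (mul_inv ρ m)) S) :
    Tm Λ ρ S := by
  obtain ⟨m', hm', t, h⟩ := h
  refine ⟨m' * m, Λ.mul_mem hm' hm, t, fun a => ?_⟩
  rw [mul_smul]
  exact (up_sub (mul_inv ρ m)).1 (h ⟨m • a, a, rfl⟩)

lemma Tm.union (h : Tm Λ ρ S) (h' : Tm Λ ρ S') (hc : ∀ s ∈ S, ∀ s' ∈ S', s * s' = s' * s) :
    Tm Λ ρ (S ∪ S') := by
  obtain ⟨m, hm, t, h⟩ := h
  obtain ⟨m', hm', t', h'⟩ := h'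
  refine tm_iff.2 ⟨m * m', Λ.mul_mem hm hm', t + t', Nil.union (fun a => (up_sub _).2 ?_)
    (fun a => (up_sub _).2 ?_) hc⟩
  · obtain ⟨_, b, rfl⟩ := a
    change (m * m') • b ∈ _
    rw [mul_smul]; exact h _
  · obtain ⟨_, b, rfl⟩ := a
    change (m * m') • b ∈ _
    rw [mul_comm, mul_smul]; exact h' _

/-- finitely many tame subsets of an abelian subgroup -/
lemma tm_biUnion {ι : Type} (T : Finset ι) (Z : ι → Set N) (B : Subgroup N) (hB : Cm B B)
    (hZ : ∀ i ∈ T, Z i ⊆ B) (h : ∀ i ∈ T, Tm Λ ρ (Z i)) : Tm Λ ρ (⋃ i ∈ T, Z i) := by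
  classical
  induction T using Finset.induction_on with
  | empty => simpa using Tm.of_nil (nil_one (ρ := ρ) (S := ∅) (by simp))
  | insert i T hi ih =>
    rw [Finset.set_biUnion_insert]
    exact (h i (by simp)).union (ih (fun j hj => hZ j (by simp [hj]))
      fun j hj => h j (by simp [hj])) fun s hs s' hs' => by
        obtain ⟨j, hj, h2⟩ := Set.mem_iUnion₂.1 hs'
        exact hB s (hZ i (by simp) hs) s' (hZ j (by simp [hj]) h2)

/-- a class of representations that is closed under submodules and quotients -/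
structure Cl (C : ∀ (A : Type) [AddCommGroup A], Representation ℤ N A → Prop) : Prop where
  sub : ∀ (A : Type) [AddCommGroup A] (ρ : Representation ℤ N A) (W : Submodule ℤ A)
    (hW : ∀ g, W ≤ W.comap (ρ g)), C A ρ → C W (ρ.subrepresentation W hW)
  quot : ∀ (A : Type) [AddCommGroup A] (ρ : Representation ℤ N A) (W : Submodule ℤ A)
    (hW : ∀ g, W ≤ W.comap (ρ g)), C A ρ → C (A ⧸ W) (ρ.quotient W hW)

lemma cl_sa (u : ℕ → FF →₀ ℤ) : Cl (N := N) fun _ _ ρ => Sa u ρ :=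
  ⟨fun _ _ _ _ hW h => h.sub hW, fun _ _ _ _ hW h => h.quot hW⟩

/-- the reduction to modules on which `Y` acts trivially -/
lemma red0 {C : ∀ (A : Type) [AddCommGroup A], Representation ℤ N A → Prop} (hC : Cl C)
    (𝒢 : Set (Subgroup N)) (hd : ∀ K ∈ 𝒢, ∀ K' ∈ 𝒢, ∃ K'' ∈ 𝒢, K'' ≤ K ∧ K'' ≤ K')
    (Y : Subgroup N) [hY : Y.Normal]
    (H : ∀ (A : Type) [AddCommGroup A] (σ : Representation ℤ N A), C A σ → (∀ y ∈ Y, σ y = 1) →
      ∃ K ∈ 𝒢, Tm Λ σ K) (h0 : C A ρ) (h : Tm Λ ρ Y) : ∃ K ∈ 𝒢, Tm Λ ρ K := by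
  have key : ∀ (t : ℕ) (A : Type) [AddCommGroup A] (ρ : Representation ℤ N A), C A ρ →
      Nil ρ Y t → ∃ K ∈ 𝒢, Tm Λ ρ K := by
    intro t
    induction t with
    | zero =>
      intro A _ ρ h0 h
      exact H A ρ h0 fun y _ => LinearMap.ext fun a => by
        rw [mem_up_zero.1 (h (ρ y a)), mem_up_zero.1 (h ((1 : Module.End ℤ A) a))]
    | succ t ih =>
      intro A _ ρ h0 h
      have hW : ∀ g, up ρ Y t ≤ (up ρ Y t).comap (ρ g) := fun g a ha =>
        up_inv (fun s hs => by simpa using hY.conj_mem s hs g⁻¹) t a ha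
      obtain ⟨K, hK, h1⟩ := ih _ _ (hC.sub A ρ _ hW h0) fun a => (up_sub hW).2 a.2
      obtain ⟨K', hK', h2⟩ := H _ _ (hC.quot A ρ _ hW h0) fun y hy => LinearMap.ext fun a => by
        obtain ⟨a, rfl⟩ := Submodule.Quotient.mk_surjective _ a
        rw [quot_mk, Module.End.one_apply, Submodule.Quotient.eq]
        exact mem_up_succ.1 (h a) y hy
      obtain ⟨K'', hK'', l1, l2⟩ := hd K hK K' hK'
      exact ⟨K'', hK'', Tm.ext hW (h1.mono l1) (h2.mono l2)⟩
  obtain ⟨m, hm, t, h⟩ := tm_iff.1 h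
  obtain ⟨K, hK, h1⟩ := key t _ _ (hC.sub A ρ _ (mul_inv ρ m) h0) h
  exact ⟨K, hK, h1.of_mul hm⟩

/-- the reduction to modules over the quotient group -/
lemma red (𝒢 : Set (Subgroup N)) (hd : ∀ K ∈ 𝒢, ∀ K' ∈ 𝒢, ∃ K'' ∈ 𝒢, K'' ≤ K ∧ K'' ≤ K')
    (Y : Subgroup N) [Y.Normal] (h0 : Sa u ρ) (h : Tm Λ ρ Y)
    (H : ∀ (A : Type) [AddCommGroup A] (σ : Representation ℤ (N ⧸ Y) A), Sa u σ →
      ∃ K ∈ 𝒢, Tm Λ σ (K.map (QuotientGroup.mk' Y))) : ∃ K ∈ 𝒢, Tm Λ ρ K := by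
  refine red0 (cl_sa u) 𝒢 hd Y (fun A _ σ h1 h2 => ?_) h0 h
  obtain ⟨σ', h3, h4⟩ := h1.quotGrp Y h2
  obtain ⟨K, hK, h5⟩ := H A σ' h3
  exact ⟨K, hK, Tm.of_map (QuotientGroup.mk' Y) h4 h5⟩

/-- passing to the group that acts faithfully on `m A` -/
lemma exists_quot (h0 : Sa u ρ) (m : ℤ) : ∃ (A' : Type) (_ : AddCommGroup A')
    (σ : Representation ℤ (N ⧸ kr ρ m) A'), Sa u σ ∧
      ∀ m' : ℤ, (kr σ m').comap (QuotientGroup.mk' (kr ρ m)) ≤ kr ρ (m * m') := by
  obtain ⟨σ, h1, h2⟩ := (h0.sub (mul_inv ρ m)).quotGrp (kr ρ m) fun y hy =>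
    LinearMap.ext fun a => Subtype.ext (by obtain ⟨_, b, rfl⟩ := a; exact hy b)
  refine ⟨_, _, σ, h1, fun m' x hx a => ?_⟩
  have := congrArg Subtype.val (hx ⟨m • a, a, rfl⟩)
  rw [h2] at this
  rw [mul_comm, mul_smul]
  exact this

end Rep

end Pool.Agent.MP_5c28a4_al.H89S.StrA
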