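import Pool.Agent.MP_5c28a4_al.H68S.Spec

/-!
Section S2: the induction on the derived length.
-/

set_option autoImplicit false

namespace Pool.Agent.MP_5c28a4_al.H89S.StrA

open scoped commutatorElement
open StA

namespace FinA

variable {G : Type} [Group G]

/-- an abelian normal subgroup as a module -/
lemma conjRep (P : Subgroup G) [P.Normal] (hP : Cm P P) :
    ∃ (W : Type) (_ : AddCommGroup W) (ρ : Representation ℤ G W) (f : G → W), AddOn P f ∧
      (∀ w, ∃ x ∈ P, f x = w) ∧ (∀ x ∈ P, f x = 0 → x = 1) ∧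
      ∀ g, ∀ x ∈ P, f (g * x * g⁻¹) = ρ g (f x) := by
  classical
  let ρ₀ : G →* Module.End ℤ (Additive (Abelianization P)) :=
    { toFun := fun g => (MonoidHom.toAdditive
        (Abelianization.map (MulAut.conjNormal (H := P) g).toMonoidHom)).toIntLinearMap
      map_one' := by
        refine LinearMap.ext fun w => ?_
        obtain ⟨x, rfl⟩ : ∃ x : P, Additive.ofMul (Abelianization.of x) = w :=
          Quot.exists_rep w
        simp
      map_mul' := fun a b => by
        refine LinearMap.ext fun w => ?_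
        obtain ⟨x, rfl⟩ : ∃ x : P, Additive.ofMul (Abelianization.of x) = w :=
          Quot.exists_rep w
        simp }
  refine ⟨Additive (Abelianization P), inferInstance, ρ₀, fun x => if h : x ∈ P then
    .ofMul (Abelianization.of ⟨x, h⟩) else 0, fun x hx y hy => ?_,
    fun w => ?_, fun x hx h => ?_, fun g x hx => ?_⟩
  · simp only [dif_pos hx, dif_pos hy, dif_pos (P.mul_mem hx hy)]
    rw [← ofMul_mul, ← map_mul]
    rfl
  · obtain ⟨x, hx⟩ : ∃ x : P, Additive.ofMul (Abelianization.of x) = w := Quot.exists_rep _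
    exact ⟨x, x.2, by simp only [dif_pos x.2, Subtype.coe_eta, hx]⟩
  · simp only [dif_pos hx, ofMul_eq_zero] at h
    have h1 : (⟨x, hx⟩ : P) ∈ commutator P := Abelianization.ker_of P ▸ h
    have h2 : x ∈ ⁅P, P⁆ := by
      rw [← P.map_subtype_commutator]
      exact ⟨_, h1, rfl⟩
    rwa [cm_iff.1 hP, Subgroup.mem_bot] at h2
  · simp only [dif_pos hx, dif_pos (Subgroup.Normal.conj_mem inferInstance x hx g)]
    rfl

variable {W : Type} [AddCommGroup W] {P : Subgroup G} {f : G → W}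

lemma add_one (h : AddOn P f) : f 1 = 0 := by
  have := h 1 P.one_mem 1 P.one_mem
  rwa [mul_one, left_eq_add] at this

lemma add_inv (h : AddOn P f) {x : G} (hx : x ∈ P) : f x⁻¹ = -f x := by
  have := h x hx _ (P.inv_mem hx)
  rw [mul_inv_cancel, add_one h] at this
  exact eq_neg_of_add_eq_zero_right this.symm

lemma add_pow (h : AddOn P f) {x : G} (hx : x ∈ P) (n : ℕ) : f (x ^ n) = (n : ℤ) • f x := by
  induction n with
  | zero => simp [add_one h]
  | succ n ih => rw [pow_succ, h _ (P.pow_mem hx n) _ hx, ih, Nat.cast_succ, add_smul, one_smul]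

/-- preimage of a submodule -/
def pre (h : AddOn P f) (U : Submodule ℤ W) : Subgroup G where
  carrier := {x | x ∈ P ∧ f x ∈ U}
  one_mem' := ⟨P.one_mem, by rw [add_one h]; exact U.zero_mem⟩
  mul_mem' := fun {a b} ha hb => ⟨P.mul_mem ha.1 hb.1, by
    rw [h a ha.1 b hb.1]; exact U.add_mem ha.2 hb.2⟩
  inv_mem' := fun {a} ha => ⟨P.inv_mem ha.1, by rw [add_inv h ha.1]; exact U.neg_mem ha.2⟩

lemma itc_eq_bot [hP : P.Normal] {ρ : Representation ℤ G W} (h : AddOn P f)
    (hi : ∀ x ∈ P, f x = 0 → x = 1) (he : ∀ g, ∀ x ∈ P, f (g * x * g⁻¹) = ρ g (f x))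
    (H : Subgroup G) (t : ℕ) : ∀ X : Subgroup G, X ≤ pre h (up ρ H t) → itc X H t = ⊥ := by
  induction t with
  | zero =>
    exact fun X hX => eq_bot_iff.2 fun x hx =>
      Subgroup.mem_bot.2 (hi x (hX hx).1 (mem_up_zero.1 (hX hx).2))
  | succ t ih =>
    intro X hX
    rw [← itc_succ']
    refine ih _ (Subgroup.commutator_le.2 fun a ha g hg => ⟨comm_mem_left (hX ha).1 g, ?_⟩)
    have h1 : ⁅a, g⁆ = a * (g * a * g⁻¹)⁻¹ := by simp [commutatorElement_def, mul_assoc]
    have h2 := hP.conj_mem a (hX ha).1 g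
    rw [h1, h _ (hX ha).1 _ (P.inv_mem h2), add_inv h h2, he g a (hX ha).1, ← sub_eq_add_neg,
      ← neg_sub]
    exact Submodule.neg_mem _ (mem_up_succ.1 (hX ha).2 g hg)

lemma adm_of_surj {u : ℕ → FF →₀ ℤ} (h : Adm u G) {G' : Type} [Group G'] (π : G →* G')
    (hπ : Function.Surjective π) : Adm u G' := by
  intro p hp A _ σ ⟨H, f, h1, h2, h3, h4⟩
  refine sat_of_surj (h p hp A (σ.comp π) ⟨H.comap π, f ∘ π, h1.comap π, fun x hx y hy => ?_,
    fun a => ?_, fun g x hx => ?_⟩) π hπ fun _ => rfl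
  · simpa using h2 _ hx _ hy
  · obtain ⟨x, hx, rfl⟩ := h3 a
    obtain ⟨y, rfl⟩ := hπ x
    exact ⟨y, hx, rfl⟩
  · simpa using h4 (π g) _ hx

end FinA

open FinA in
theorem fin (hV : BVn) (hS : SSh) (hM : SMod) : SStr := by
  intro u hu
  suffices key : ∀ (e : ℕ) (G : Type) [Group G], Group.FG G → derivedSeries G e = ⊥ → Adm u G →
      ∃ (K : Subgroup G) (c m d : ℕ), CoVN K ∧ Bdd (K.lowerCentralSeries c) ∧ 0 < m ∧
        (pw K m).lowerCentralSeries d = ⊥ by
    intro G _ h1 h2 h3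
    obtain ⟨e, he⟩ := h2.solvable
    exact key e G h1 he h3
  intro e
  induction e with
  | zero =>
    intro G _ _ he _
    have h0 : ∀ X : Subgroup G, X = ⊥ := fun X => eq_bot_iff.2 (he ▸ le_top)
    exact ⟨⊤, 0, 1, 0, covn_of_fi ⊤ inferInstance inferInstance,
      ⟨1, one_pos, fun x hx => by rw [h0 (Subgroup.lowerCentralSeries _ _)] at hx; simpa using hx⟩,
      one_pos, h0 _⟩
  | succ e ih =>
    intro G _ hG he hA
    have hsol : Group.IsSolvable G := ⟨⟨e + 1, he⟩⟩
    set P := derivedSeries G e with hPdef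
    have hP : Cm P P := cm_iff.2 he
    have hs := QuotientGroup.mk'_surjective P
    obtain ⟨K, c, m, d, k1, k2, k3, k4⟩ := ih (G ⧸ P) (fg_of_surj hG _ hs)
      (by rw [← map_derivedSeries_eq hs]; exact (le_iff_map_mk P).2 le_rfl) (adm_of_surj hA _ hs)
    obtain ⟨W, _, ρ, f, f1, f2, f3, f4⟩ := conjRep P hP
    have h0 : Sa u ρ := fun p hp => hA p hp W ρ ⟨P, f, inferInstance, f1, f2, f4⟩
    obtain ⟨σ, s1, s2⟩ := h0.quotGrp P fun y hy => LinearMap.ext fun w => by
      obtain ⟨x, hx, rfl⟩ := f2 w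
      rw [← f4 y x hx, hP y hy x hx, mul_inv_cancel_right, Module.End.one_apply]
    obtain ⟨K₁, n, m₀, t, l1, l2, l3, l4, l5, l6⟩ := hM u hu _ W σ (fg_of_surj hG _ hs)
      (solv_of_surj hsol _ hs) s1 K c m d k1 k2 k3 k4
    set K' := K₁.comap (QuotientGroup.mk' P) with hK'
    have c1 : CoVN K' := hV.comap _ _ _ _ l2
    have := c1.1
    have c2 : K'.map (QuotientGroup.mk' P) ≤ K₁ := Subgroup.map_comap_le _ _
    obtain ⟨M, hM0, hM1⟩ := k2
    have c3 : ∀ x ∈ K'.lowerCentralSeries c, x ^ M ∈ P := fun x hx => by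
      have h1 : QuotientGroup.mk' P x ∈ K.lowerCentralSeries c := by
        refine lcs_mono (c2.trans l1) c ?_
        rw [← Subgroup.map_lowerCentralSeries]
        exact Subgroup.mem_map_of_mem _ hx
      have h2 := hM1 _ h1
      rwa [← map_pow, QuotientGroup.mk'_apply, QuotientGroup.eq_one_iff] at h2
    have c4 : itc (pw P m₀) K' t = ⊥ := itc_eq_bot (ρ := ρ) f1 f3 f4 K' t _ (pw_le_iff.2
      fun y hy => ⟨P.pow_mem hy _, by
        rw [add_pow f1 hy, ← up_map (QuotientGroup.mk' P) s2]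
        exact up_anti c2 t (l5 _)⟩)
    obtain ⟨n', hn', c5⟩ := hS G hsol t (M * m₀) (K'.lowerCentralSeries c) K' (pw P m₀) ⊥
      (lcs_normal _ _) this (pw_normal _ _) inferInstance (lcs_le _ _) (Nat.mul_pos hM0 l4)
      (fun x hx => by rw [pow_mul]; exact pow_mem_pw (c3 x hx) _) c4.le
    have c6 : (pw K' (m * n)).lowerCentralSeries d ≤ P := by
      rw [← le_iff_map_mk, Subgroup.map_lowerCentralSeries, pw_map, eq_bot_iff, ← k4]
      exact lcs_mono ((pw_dvd _ (dvd_mul_right m n)).trans (pw_mono (c2.trans l1) m)) d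
    have c7 : itc P (pw K' (m * n)) t = ⊥ := itc_eq_bot (ρ := ρ) f1 f3 f4 _ t _
      fun y hy => ⟨hy, by
        rw [← up_map (QuotientGroup.mk' P) s2]
        refine up_anti ?_ t (l6 _)
        change (pw K' (m * n)).map (QuotientGroup.mk' P) ≤ pw K₁ n
        rw [pw_map]
        exact (pw_dvd _ (dvd_mul_left n m)).trans (pw_mono c2 n)⟩
    refine ⟨K', c + t, m * n, d + t, c1, ⟨n', hn', fun x hx => ?_⟩, Nat.mul_pos k3 l3, ?_⟩
    · rw [← itc_lcs] at hx
      exact Subgroup.mem_bot.1 (c5 x hx)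
    · rw [← itc_lcs, eq_bot_iff, ← c7]
      exact itc_mono c6 le_rfl t

end Pool.Agent.MP_5c28a4_al.H89S.StrA
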