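import Pool.Agent.MP_5c28a4_al.H68S.Base

/-!
Section S2: the statements of the parts.
-/

set_option autoImplicit false

namespace Pool.Agent.MP_5c28a4_al.H89S.StrA

open scoped commutatorElement
open StA

/-- common multiples of Laurent polynomials, on words -/
def SCm : Prop := ∀ ws : List (FreeGroup ℤ), (∀ w ∈ ws, ab w ≠ 0) → ∃ W : FreeGroup ℤ, ab W ≠ 0 ∧
  ∀ w ∈ ws, ∃ W' : FreeGroup ℤ, ∀ (N : Type) [Group N] (P : Subgroup N) (y z : N), y ∈ P → Nz z P →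
    evz y z W * (evz (evz y z W') z w)⁻¹ ∈ ⁅P, P⁆

/-- the values of `W` on an abelian subgroup are tame -/
def UZ (Λ : Submonoid ℤ) (u : ℕ → FF →₀ ℤ) (W : FreeGroup ℤ) : Prop :=
  ∀ (N A : Type) [Group N] [AddCommGroup A] (ρ : Representation ℤ N A), Sa u ρ →
    ∀ (B : Subgroup N) (z : N), Cm B B → Nz z B → Tm Λ ρ {x | ∃ b ∈ B, x = evz b z W}

def SUz : Prop := ∀ (u : ℕ → FF →₀ ℤ) (l : ℕ), l.Prime → Good l (u l) →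
  ∃ W : FreeGroup ℤ, ab W ≠ 0 ∧ UZ (La l) u W

/-- the identity in class two -/
def SPc : Prop := ∀ (u : FF →₀ ℤ) (l : ℕ), l.Prime → Good l u →
  ∃ (ws : List (FreeGroup ℤ)) (m : ℤ) (n : ℕ), (∀ w ∈ ws, ab w ≠ 0) ∧ m ∈ La l ∧ 0 < n ∧
    ∀ (N A : Type) [Group N] [AddCommGroup A] (ρ : Representation ℤ N A), Sat u ρ →
      ∀ (P : Subgroup N) (y z : N), P.lowerCentralSeries 2 = ⊥ → y ∈ P → Nz z P →
        ∀ l' : List (FreeGroup ℤ × N), l'.map Prod.fst = ws → (∀ t ∈ l', t.2 ∈ P) →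
          m • (l'.map fun t => ρ (⁅t.2, evz y z t.1⁆ ^ n) - 1).prod = 0

/-- making a product of different augmentation ideals uniform -/
def SUni : Prop := ∀ (N A : Type) [Group N] [AddCommGroup A] (ρ : Representation ℤ N A) (m : ℤ)
  (D : Subgroup N), D.Normal → ∀ (v : ℕ) (B : Subgroup N), B.Normal → Cm B B →
  itc B D (v + 1) = ⊥ → ∀ (Ws : List (Subgroup N)) (Wb : Set N), Wb ⊆ B →
  (∀ W ∈ Ws, W ≤ B ∧ Wb ⊆ (W ⊔ ⁅B, D⁆ : Subgroup N)) →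
  (∀ xs : List N, List.Forall₂ (fun x W => x ∈ W) xs Ws → m • (xs.map fun x => ρ x - 1).prod = 0) →
  ∀ ds : List N, ds.length = v → (∀ d ∈ ds, d ∈ D) →
    ∃ M t : ℕ, 0 < M ∧ ∀ a : A, m • a ∈ up ρ {x | ∃ w ∈ Wb, x = icm w ds ^ M} t

/-- tame commutators in class two -/
def PU (Λ : Submonoid ℤ) (u : ℕ → FF →₀ ℤ) (W : FreeGroup ℤ) : Prop :=
  ∀ (N A : Type) [Group N] [AddCommGroup A] (ρ : Representation ℤ N A), Sa u ρ →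
    ∀ (P D : Subgroup N) (v : ℕ), P.Normal → D.Normal → P.lowerCentralSeries 2 = ⊥ →
      itc ⁅P, P⁆ D (v + 1) = ⊥ → ∀ z ∈ D, ∀ y ∈ P, ∀ ds : List N, ds.length = v →
      (∀ d ∈ ds, d ∈ D) →
        ∃ M : ℕ, 0 < M ∧ Tm Λ ρ {x | ∃ c ∈ P, x = icm ⁅evz c z W, y⁆ ds ^ M}

def SPu : Prop := ∀ (u : ℕ → FF →₀ ℤ) (l : ℕ), l.Prime → Good l (u l) →
  ∃ W : FreeGroup ℤ, ab W ≠ 0 ∧ PU (La l) u W

/-- a Laurent identity makes powers unipotent -/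
def SAl1 : Prop := ∀ f : ℤ →₀ ℤ, f ≠ 0 → ∃ m L e : ℕ, 0 < m ∧ 0 < L ∧
  ∀ (Q M : Type) [Group Q] [AddCommGroup M] (σ : Representation ℤ Q M), (∀ z, pe σ z f = 0) →
    ∀ z, (m : ℤ) • (σ (z ^ L) - 1) ^ e = 0

/-- unipotent powers give a nilpotent subgroup of finite index -/
def SAl2 : Prop := ∀ (Q M : Type) [Group Q] [AddCommGroup M] (σ : Representation ℤ Q M),
  Group.FG Q → ∀ (K : Subgroup Q) (c L e : ℕ), CoVN K → Nil σ K c → 0 < L →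
  (∀ z, (σ (z ^ L) - 1) ^ e = 0) →
    ∃ (D : Subgroup Q) (n : ℕ), D.Normal ∧ D.FiniteIndex ∧ Nil σ D n

/-- the augmentation lemma, for modules -/
def SAl : Prop := ∀ (Q M : Type) [Group Q] [AddCommGroup M] (σ : Representation ℤ Q M),
  Group.FG Q → ∀ (K : Subgroup Q) (c : ℕ), CoVN K → Nil σ K c → ∀ f : ℤ →₀ ℤ, f ≠ 0 →
    ∃ (m n : ℕ) (D : Subgroup Q) (S : Finset Q), 0 < m ∧ D.Normal ∧ D.FiniteIndex ∧
      ∀ ds : List Q, ds.length = n → (∀ d ∈ ds, d ∈ D) → ∀ a : M,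
        (m : ℤ) • (ds.map fun d => σ d - 1).prod a ∈ ⨆ z ∈ S, LinearMap.range (pe σ z f)

/-- the augmentation lemma, for abelian sections -/
def SAlg : Prop := ∀ (N : Type) [Group N], Group.FG N → ∀ (K D X Y : Subgroup N) (c : ℕ)
  (W : FreeGroup ℤ), CoVN K → D.Normal → D.FiniteIndex → X.Normal → Y.Normal → ⁅X, X⁆ ≤ Y →
  itc X K c ≤ Y → ab W ≠ 0 →
    ∃ (m n : ℕ) (D₂ : Subgroup N) (S : Finset N), 0 < m ∧ D₂.Normal ∧ D₂.FiniteIndex ∧ D₂ ≤ D ∧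
      (∀ z ∈ S, z ∈ D) ∧
      itc (pw X m) D₂ n ≤ Y ⊔ Subgroup.closure {x | ∃ z ∈ S, ∃ b ∈ X, x = evz b z W}

/-- nilpotent action on a power of an abelian section -/
def SNk : Prop := ∀ (N : Type) [Group N] (K B Y : Subgroup N) (c M : ℕ), K.Normal → B.Normal →
  Y.Normal → B ≤ K → ⁅B, B⁆ ≤ Y → (∀ x ∈ K.lowerCentralSeries c, x ^ M = 1) →
    itc (pw B M) K c ≤ Y

/-- abelian normal subgroups are virtually hypercentral modulo a tame subgroup -/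
def STa : Prop := ∀ (Λ : Submonoid ℤ) (u : ℕ → FF →₀ ℤ) (W : FreeGroup ℤ), ab W ≠ 0 → UZ Λ u W →
  ∀ (N A : Type) [Group N] [AddCommGroup A] (ρ : Representation ℤ N A), Group.FG N → Sa u ρ →
  ∀ (K B : Subgroup N) (c : ℕ), CoVN K → Bdd (K.lowerCentralSeries c) → B.Normal → Cm B B →
    B ≤ K → ∃ (M v : ℕ) (D : Subgroup N), 0 < M ∧ D.Normal ∧ D.FiniteIndex ∧
      Tm Λ ρ (itc (pw B M) D v)

/-- the lemma of Schur type -/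
def SSh : Prop := ∀ (G : Type) [Group G], Group.IsSolvable G → ∀ (v M : ℕ) (X D Z Y : Subgroup G),
  X.Normal → D.Normal → Z.Normal → Y.Normal → X ≤ D → 0 < M → (∀ x ∈ X, x ^ M ∈ Z) →
  itc Z D v ≤ Y → ∃ n : ℕ, 0 < n ∧ ∀ x ∈ itc X D v, x ^ n ∈ Y

/-- bounded abelian normal subgroups -/
def SU2 : Prop := ∀ u : ℕ → FF →₀ ℤ, (∀ p : ℕ, p.Prime → Good p (u p)) →
  ∀ (N A : Type) [Group N] [AddCommGroup A] (ρ : Representation ℤ N A), Group.FG N →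
  Group.IsSolvable N → Sa u ρ → ∀ B : Subgroup N, B.Normal → Cm B B → Bdd B →
    ∃ (m : ℤ) (D : Subgroup N), m ≠ 0 ∧ D.Normal ∧ D.FiniteIndex ∧ ⁅B, D⁆ ≤ kr ρ m

/-- bounded normal subgroups -/
def STow : Prop := ∀ u : ℕ → FF →₀ ℤ, (∀ p : ℕ, p.Prime → Good p (u p)) →
  ∀ (N A : Type) [Group N] [AddCommGroup A] (ρ : Representation ℤ N A), Group.FG N →
  Group.IsSolvable N → Sa u ρ → ∀ X : Subgroup N, X.Normal → Bdd X →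
    ∃ (m : ℤ) (D : Subgroup N), m ≠ 0 ∧ D.Normal ∧ D.FiniteIndex ∧ ⁅X ⊓ D, D⁆ ≤ kr ρ m

/-- finite generation of a power of the abelianised power subgroup -/
def SGen : Prop := ∀ (N : Type) [Group N], Group.FG N → ∀ (K D : Subgroup N) (c m : ℕ), CoVN K →
  Bdd (K.lowerCentralSeries c) → 0 < m → D.Normal → D.FiniteIndex →
    ∃ (M : ℕ) (T : Finset N), 0 < M ∧ (∀ t ∈ T, t ∈ pw K m) ∧ pw (pw K m) M ≤
      Subgroup.closure {x | ∃ d ∈ D, ∃ t ∈ T, x = d * t * d⁻¹} ⊔ ⁅pw K m, pw K m⁆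

/-- the tame subgroup in class two -/
def STy : Prop := ∀ (Λ : Submonoid ℤ) (u : ℕ → FF →₀ ℤ) (W : FreeGroup ℤ), PU Λ u W →
  ∀ (N A : Type) [Group N] [AddCommGroup A] (ρ : Representation ℤ N A), Sa u ρ →
  ∀ (P D P₁ P₀ : Subgroup N) (v : ℕ) (S T : Finset N), P.Normal → D.Normal → P₁.Normal → D.FG →
    P.lowerCentralSeries 2 = ⊥ → itc ⁅P, P⁆ D (v + 1) = ⊥ → (∀ z ∈ S, z ∈ D) → (∀ t ∈ T, t ∈ P) →
    P₁ ≤ ⁅P, P⁆ ⊔ Subgroup.closure {x | ∃ z ∈ S, ∃ b ∈ P, x = evz b z W} →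
    P₀ ≤ Subgroup.closure {x | ∃ d ∈ D, ∃ t ∈ T, x = d * t * d⁻¹} ⊔ ⁅P, P⁆ →
      ∃ M : ℕ, 0 < M ∧ Tm Λ ρ (itc (pw ⁅P₁, P₀⁆ M) D v)

/-- the step in class two -/
def SD2 : Prop := ∀ (Λ : Submonoid ℤ) (u : ℕ → FF →₀ ℤ) (W : FreeGroup ℤ), ab W ≠ 0 → PU Λ u W →
  ∀ (N A : Type) [Group N] [AddCommGroup A] (ρ : Representation ℤ N A), Group.FG N →
  Group.IsSolvable N → Sa u ρ → ∀ (K D : Subgroup N) (c m v : ℕ), CoVN K →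
  Bdd (K.lowerCentralSeries c) → 0 < m → D.Normal → D.FiniteIndex →
  (pw K m).lowerCentralSeries 2 = ⊥ → itc ⁅pw K m, pw K m⁆ D (v + 1) = ⊥ →
    ∃ (Y K₁ : Subgroup N) (m₁ : ℕ), Y.Normal ∧ Tm Λ ρ Y ∧ K₁ ≤ K ∧ CoVN K₁ ∧ 0 < m₁ ∧
      pw K₁ m₁ ≤ pw K m ∧ itc ⁅pw K₁ m₁, pw K₁ m₁⁆ D v ≤ Y

/-- claim T -/
def SClT : Prop := ∀ (u : ℕ → FF →₀ ℤ) (l : ℕ), l.Prime → Good l (u l) →
  ∀ (d : ℕ) (N A : Type) [Group N] [AddCommGroup A] (ρ : Representation ℤ N A), Group.FG N →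
  Group.IsSolvable N → Sa u ρ → ∀ (K : Subgroup N) (c m : ℕ), CoVN K →
  Bdd (K.lowerCentralSeries c) → 0 < m → (pw K m).lowerCentralSeries d = ⊥ →
    ∃ (K₁ : Subgroup N) (n : ℕ), K₁ ≤ K ∧ CoVN K₁ ∧ 0 < n ∧ Tm (La l) ρ (pw K₁ n)

/-- the action on a module -/
def SMod : Prop := ∀ u : ℕ → FF →₀ ℤ, (∀ p : ℕ, p.Prime → Good p (u p)) →
  ∀ (N A : Type) [Group N] [AddCommGroup A] (ρ : Representation ℤ N A), Group.FG N →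
  Group.IsSolvable N → Sa u ρ → ∀ (K : Subgroup N) (c m d : ℕ), CoVN K →
  Bdd (K.lowerCentralSeries c) → 0 < m → (pw K m).lowerCentralSeries d = ⊥ →
    ∃ (K₁ : Subgroup N) (n m₀ t : ℕ), K₁ ≤ K ∧ CoVN K₁ ∧ 0 < n ∧ 0 < m₀ ∧
      (∀ a : A, (m₀ : ℤ) • a ∈ up ρ K₁ t) ∧ Nil ρ (pw K₁ n) t

end Pool.Agent.MP_5c28a4_al.H89S.StrA
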